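import Pool.Agent.T2H21.PL.B

/-!
# `∑_{k<p} C(p-1,k) P_k / 8^k C(2k,k)^2 ≡ 0 (mod p^2)` for all primes `p ≡ 7 (mod 8)`

A full positive answer to Q2 of MP_025f5d_nt.
-/

set_option autoImplicit false

namespace Pool.Agent.Results.MP_025f5d_nt.SevenModEight

open Finset

/-- The Pell numbers `P_0 = 0`, `P_1 = 1`, `P_{n+2} = 2 P_{n+1} + P_n`. -/
def pell : ℕ → ℤ
  | 0 => 0
  | 1 => 1
  | n + 2 => 2 * pell (n + 1) + pell n

/-- `x ≡ y (mod p ^ 2)` in the ring of rational numbers with denominator prime to `p`: `x - y` is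
`p ^ 2` times a rational number whose denominator is prime to `p`. -/
def Cong (p : ℕ) (x y : ℚ) : Prop := ∃ c : ℚ, p.Coprime c.den ∧ x - y = (p : ℚ) ^ 2 * c

/-- `T(p) = ∑_{k=0}^{p-1} C(p-1,k) P_k / 8^k C(2k,k)^2` -/
def T (p : ℕ) : ℚ :=
  ∑ k ∈ range p, ((p - 1).choose k : ℚ) * ((pell k : ℚ) / 8 ^ k) * ((2 * k).choose k : ℚ) ^ 2

theorem pell_eq (k : ℕ) : pell k = Pool.Agent.T2H21.PL.pell k := by
  induction k using Nat.twoStepInduction with
  | zero => rfl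
  | one => rfl
  | more k ih1 ih2 => simp only [pell, Pool.Agent.T2H21.PL.pell, ih1, ih2]

/-- **Q2 of MP_025f5d_nt**: `T(p) ≡ 0 (mod p ^ 2)` for every prime `p ≡ 7 (mod 8)`. -/
theorem result : ∀ p : ℕ, p.Prime → p % 8 = 7 → Cong p (T p) 0 := by
  intro p hp h8
  haveI : Fact p.Prime := ⟨hp⟩
  obtain ⟨z, hz⟩ := Pool.Agent.T2H21.PL.main_int (p := p) h8
  refine ⟨(z : ℚ) / 8 ^ (p - 1), ?_, ?_⟩
  · have h1 : ((z : ℚ) / 8 ^ (p - 1)).den ∣ 8 ^ (p - 1) := by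
      have : (z : ℚ) / 8 ^ (p - 1) = Rat.divInt z ((8 ^ (p - 1) : ℕ) : ℤ) := by
        rw [Rat.divInt_eq_div]
        push_cast
        rfl
      rw [this]
      have h2 := Rat.den_dvd z ((8 ^ (p - 1) : ℕ) : ℤ)
      exact_mod_cast h2
    refine Nat.Coprime.coprime_dvd_right h1 (Nat.Coprime.pow_right _ ?_)
    rw [show (8 : ℕ) = 2 ^ 3 by norm_num]
    refine Nat.Coprime.pow_right _ ?_
    exact (Nat.coprime_primes hp Nat.prime_two).2 (by omega)
  · have h2 := congrArg (Int.cast : ℤ → ℚ) hz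
    push_cast at h2
    have h8 : (8 : ℚ) ^ (p - 1) ≠ 0 := by positivity
    rw [sub_zero, ← mul_div_assoc, eq_div_iff h8, ← h2, T, Finset.sum_mul]
    refine Finset.sum_congr rfl fun k hk => ?_
    rw [Finset.mem_range] at hk
    have h3 : (8 : ℚ) ^ (p - 1) = 8 ^ (p - 1 - k) * 8 ^ k := by
      rw [← pow_add]
      congr 1
      omega
    rw [h3, pell_eq]
    have h9 : (8 : ℚ) ^ k ≠ 0 := by positivity
    field_simp

end Pool.Agent.Results.MP_025f5d_nt.SevenModEight
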